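import Mathlib

/-!
# A triametral triple without peripheral vertices in a median graph

The graph below is the Hasse diagram of the lattice of order ideals of the four element
fence, i.e. the subgraph of the 4-cube induced by the vectors `x` with `x₂ ≤ x₁`, `x₂ ≤ x₃`
and `x₄ ≤ x₃`.  It has 8 vertices and 10 edges, it is a median graph of diameter 4 and
triameter 8, and `1000`, `0011`, `1110` is a triametral triple all of whose members have
eccentricity 3.

Vertices: `0 = 0000`, `1 = 1000`, `2 = 0010`, `3 = 1010`, `4 = 0011`, `5 = 1011`,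
`6 = 1110`, `7 = 1111`.
-/

namespace Pool.Agent.Results.MP_2f8eff_co.NoPeripheralVertex

/-- The interval `[u,v]` of `G`: the vertices lying on some shortest path from `u` to `v`. -/
def interval {V : Type*} (G : SimpleGraph V) (u v : V) : Set V :=
  {x | ∃ p : G.Walk u v, p.IsPath ∧ p.length = G.dist u v ∧ x ∈ p.support}

/-- `G` is a median graph: it is connected and for all vertices `u, v, w` exactly one vertex
lies in all three intervals `[u,v]`, `[u,w]`, `[v,w]`. -/
def IsMedianGraph {V : Type*} (G : SimpleGraph V) : Prop :=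
  G.Connected ∧ ∀ u v w : V, ∃! x : V, x ∈ interval G u v ∩ interval G u w ∩ interval G v w

/-- `d(a,b,c) = d(a,b) + d(b,c) + d(a,c)`. -/
noncomputable def tripleDist {V : Type*} (G : SimpleGraph V) (a b c : V) : ℕ :=
  G.dist a b + G.dist b c + G.dist a c

/-- The triameter of `G`, the maximum of `d(a,b,c)` over all triples of vertices. -/
noncomputable def triameter {V : Type*} (G : SimpleGraph V) : ℕ :=
  ⨆ t : V × V × V, tripleDist G t.1 t.2.1 t.2.2

/-- The triple `a, b, c` is triametral. -/
def IsTriametral {V : Type*} (G : SimpleGraph V) (a b c : V) : Prop :=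
  tripleDist G a b c = triameter G

/-- `v` is peripheral: its eccentricity equals the diameter. -/
def IsPeripheral {V : Type*} (G : SimpleGraph V) (v : V) : Prop :=
  G.eccent v = G.ediam

/-- The coordinates of the eight vertices, as binary numbers (bit `0` is the coordinate `x₁`). -/
def code (x : Fin 8) : ℕ :=
  match x with
  | 0 => 0
  | 1 => 1
  | 2 => 4
  | 3 => 5
  | 4 => 12
  | 5 => 13
  | 6 => 7
  | 7 => 15

/-- Hamming distance of the codes of two vertices. -/
def ham (x y : Fin 8) : ℕ :=
  let z := Nat.xor (code x) (code y)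
  z % 2 + (z / 2) % 2 + (z / 4) % 2 + (z / 8) % 2

/-- The graph: two vertices are adjacent when their codes differ in exactly one place. -/
def G₀ : SimpleGraph (Fin 8) where
  Adj x y := ham x y = 1
  symm := ⟨by decide⟩
  loopless := ⟨by decide⟩

theorem adj_iff (x y : Fin 8) : G₀.Adj x y ↔ ham x y = 1 := Iff.rfl

theorem ham_step : ∀ x y z : Fin 8, ham y z = 1 → ham x z ≤ ham x y + 1 := by decide

theorem ham_walk (x y : Fin 8) (p : G₀.Walk x y) : ham x y ≤ p.length := by
  induction p with
  | nil =>
    have h0 : ∀ a : Fin 8, ham a a ≤ 0 := by decide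
    exact h0 _
  | cons h p ih =>
    rename_i u v w
    have h1 : ham u v = 1 := h
    have h2 : ∀ a b c : Fin 8, ham a b = 1 → ham a c ≤ ham b c + 1 := by decide
    have := h2 u v w h1
    simp only [SimpleGraph.Walk.length_cons]
    omega

theorem exists_step : ∀ x y : Fin 8, x ≠ y → ∃ z, ham x z = 1 ∧ ham x y = ham z y + 1 := by
  decide

theorem exists_walk (n : ℕ) : ∀ x y : Fin 8, ham x y = n → ∃ p : G₀.Walk x y, p.length = n := by
  induction n with
  | zero =>
    intro x y h
    have : ∀ x y : Fin 8, ham x y = 0 → x = y := by decide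
    obtain rfl := this x y h
    exact ⟨SimpleGraph.Walk.nil, rfl⟩
  | succ n ih =>
    intro x y h
    have hne : x ≠ y := by
      rintro rfl
      have : ∀ x : Fin 8, ham x x = 0 := by decide
      rw [this] at h
      omega
    obtain ⟨z, hz1, hz2⟩ := exists_step x y hne
    obtain ⟨p, hp⟩ := ih z y (by omega)
    exact ⟨SimpleGraph.Walk.cons (show G₀.Adj x z from hz1) p, by simp [hp]⟩

theorem dist_eq (x y : Fin 8) : G₀.dist x y = ham x y := by
  obtain ⟨p, hp⟩ := exists_walk _ x y rfl
  apply le_antisymm
  · rw [← hp]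
    exact SimpleGraph.dist_le p
  · obtain ⟨q, hq⟩ := (p.reachable).exists_walk_length_eq_dist
    rw [← hq]
    exact ham_walk x y q

theorem connected : G₀.Connected := by
  have : Nonempty (Fin 8) := ⟨0⟩
  exact ⟨fun x y => by
    obtain ⟨p, -⟩ := exists_walk _ x y rfl
    exact p.reachable⟩

theorem mem_interval (u v x : Fin 8) :
    x ∈ interval G₀ u v ↔ ham u x + ham x v = ham u v := by
  constructor
  · rintro ⟨p, -, hp, hx⟩
    obtain ⟨q, r, rfl⟩ := SimpleGraph.Walk.mem_support_iff_exists_append.mp hx
    rw [SimpleGraph.Walk.length_append, dist_eq] at hp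
    have h1 := ham_walk _ _ q
    have h2 := ham_walk _ _ r
    have h3 : ∀ a b c : Fin 8, ham a c ≤ ham a b + ham b c := by decide
    have := h3 u x v
    omega
  · intro h
    obtain ⟨q, hq⟩ := exists_walk _ u x rfl
    obtain ⟨r, hr⟩ := exists_walk _ x v rfl
    have hl : (q.append r).length = G₀.dist u v := by
      rw [SimpleGraph.Walk.length_append, dist_eq]
      omega
    refine ⟨q.append r, ?_, hl, ?_⟩
    · exact SimpleGraph.Walk.isPath_of_length_eq_dist _ hl
    · rw [SimpleGraph.Walk.mem_support_append_iff]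
      exact Or.inl (SimpleGraph.Walk.end_mem_support q)

/-- The candidate for the median of three vertices, with its uniqueness, by computation. -/
theorem median_ham : ∀ u v w : Fin 8, ∃ x : Fin 8,
    ((ham u x + ham x v = ham u v ∧ ham u x + ham x w = ham u w) ∧
      ham v x + ham x w = ham v w) ∧
    ∀ y : Fin 8, (ham u y + ham y v = ham u v ∧ ham u y + ham y w = ham u w) ∧
      ham v y + ham y w = ham v w → y = x := by
  decide +kernel

theorem isMedianGraph : IsMedianGraph G₀ := by
  refine ⟨connected, fun u v w => ?_⟩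
  obtain ⟨x, hx, hy⟩ := median_ham u v w
  refine ⟨x, ?_, fun y hy' => hy y ?_⟩
  · simpa only [Set.mem_inter_iff, mem_interval] using hx
  · simpa only [Set.mem_inter_iff, mem_interval] using hy'

theorem tripleDist_le (x y z : Fin 8) : tripleDist G₀ x y z ≤ 8 := by
  unfold tripleDist
  rw [dist_eq, dist_eq, dist_eq]
  revert x y z
  decide +kernel

theorem tripleDist_eq : tripleDist G₀ 1 4 6 = 8 := by
  unfold tripleDist
  rw [dist_eq, dist_eq, dist_eq]
  decide +kernel

theorem triameter_eq : triameter G₀ = 8 := by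
  apply le_antisymm
  · exact ciSup_le fun t => tripleDist_le _ _ _
  · refine tripleDist_eq.symm.le.trans ?_
    exact le_ciSup (f := fun t : Fin 8 × Fin 8 × Fin 8 => tripleDist G₀ t.1 t.2.1 t.2.2)
      ⟨8, by rintro _ ⟨t, rfl⟩; exact tripleDist_le _ _ _⟩ (1, 4, 6)

theorem four_le_ediam : (4 : ℕ∞) ≤ G₀.ediam := by
  have h : G₀.edist 0 7 = 4 := by
    rw [← (connected.preconnected 0 7).coe_dist_eq_edist, dist_eq]
    rfl
  rw [← h]
  exact SimpleGraph.edist_le_ediam

theorem not_isPeripheral (v : Fin 8) (hv : ∀ x : Fin 8, ham v x ≤ 3) : ¬ IsPeripheral G₀ v := by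
  intro h
  have h1 : G₀.eccent v ≤ 3 := by
    rw [SimpleGraph.eccent_le_iff]
    intro x
    rw [← (connected.preconnected v x).coe_dist_eq_edist, dist_eq]
    exact_mod_cast hv x
  have h2 := four_le_ediam
  rw [← show G₀.eccent v = G₀.ediam from h] at h2
  have h3 : (4 : ℕ∞) ≤ 3 := h2.trans h1
  exact absurd h3 (by decide)

/-- There is a median graph on `8` vertices with a triametral triple none of whose members is
peripheral. -/
theorem result :
    ∃ G : SimpleGraph (Fin 8), IsMedianGraph G ∧
      ∃ a b c : Fin 8, IsTriametral G a b c ∧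
        ¬ IsPeripheral G a ∧ ¬ IsPeripheral G b ∧ ¬ IsPeripheral G c := by
  refine ⟨G₀, isMedianGraph, 1, 4, 6, ?_, ?_, ?_, ?_⟩
  · unfold IsTriametral
    rw [tripleDist_eq, triameter_eq]
  · exact not_isPeripheral _ (by decide)
  · exact not_isPeripheral _ (by decide)
  · exact not_isPeripheral _ (by decide)

end Pool.Agent.Results.MP_2f8eff_co.NoPeripheralVertex
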